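import Pool.Agent.U409.OA.Stm3

set_option autoImplicit false

/-! Project OA, package SVT: the sum over the minors of the Vandermonde determinant. -/

namespace Pool.Agent.U408.OA

open Finset Pool.Agent.U409.OA

/-- Taking one point out of a Vandermonde product. -/
theorem vander_split {m : ℕ} (f : Fin (m + 1) → ℚ) (j : Fin (m + 1)) :
    (∏ k : Fin m, (f (j.succAbove k) - f j)) *
      (∏ k : Fin m, ∏ k' ∈ Ioi k, (f (j.succAbove k') - f (j.succAbove k))) =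
    (-1) ^ (j : ℕ) * ∏ k : Fin (m + 1), ∏ k' ∈ Ioi k, (f k' - f k) := by
  have h1 : (Matrix.vandermonde (f ∘ j.cycleRange.symm)).det =
      (-1) ^ (j : ℕ) * (Matrix.vandermonde f).det := by
    have h2 : Matrix.vandermonde (f ∘ j.cycleRange.symm) =
        (Matrix.vandermonde f).submatrix j.cycleRange.symm id := by
      ext a b
      simp [Matrix.vandermonde]
    rw [h2, Matrix.det_permute]
    simp [Equiv.Perm.sign_symm, Fin.sign_cycleRange]
  rw [Matrix.det_vandermonde, Matrix.det_vandermonde] at h1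
  rw [← h1, Fin.prod_univ_succ]
  congr 1
  · rw [Fin.prod_Ioi_zero]
    refine prod_congr rfl fun k _ => ?_
    simp
  · refine prod_congr rfl fun k _ => ?_
    rw [Fin.prod_Ioi_succ]
    refine prod_congr rfl fun k' _ => ?_
    simp

theorem ex_inj {a b : ℕ} (h : ex a = ex b) : a = b := by
  unfold ex at h
  omega

theorem ex_sub_ne {a b : ℕ} (h : a ≠ b) : ((ex a : ℚ) ^ 2 - (ex b : ℚ) ^ 2) ≠ 0 := by
  intro h1
  rw [sub_eq_zero, sq_eq_sq₀ (Nat.cast_nonneg _) (Nat.cast_nonneg _)] at h1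
  exact h (ex_inj (by exact_mod_cast h1))

theorem prod_erase_eq {m : ℕ} (g : Fin (m + 1) → ℚ) (j : Fin (m + 1)) :
    ∏ k ∈ univ.erase j, g k = ∏ k : Fin m, g (j.succAbove k) := by
  have h : (univ.erase j : Finset (Fin (m + 1))) = univ.image j.succAbove := by
    rw [Fin.image_succAbove_univ]
    ext k
    simp
  rw [h, prod_image fun a _ b _ hab => Fin.succAbove_right_injective hab]

theorem t_SVT : S_SVT := by
  intro n
  unfold SV
  have key : ∀ j : Fin (2 * n + 2), (-1 : ℚ) ^ ((j : ℕ) + (3 * n + 2 - ex j)) *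
      ∏ k : Fin (2 * n + 1), ∏ k' ∈ Ioi k,
        ((ex (j.succAbove k') : ℚ) ^ 2 - (ex (j.succAbove k) : ℚ) ^ 2) =
      -(-1) ^ n * Vn n * ((-1 : ℚ) ^ (ex j) /
        ∏ k ∈ univ.erase j, ((ex j : ℚ) ^ 2 - (ex k : ℚ) ^ 2)) := by
    intro j
    have h1 := vander_split (m := 2 * n + 1) (fun k => (ex (k : ℕ) : ℚ) ^ 2) j
    have h2 : ∏ k : Fin (2 * n + 1), ((ex (j.succAbove k) : ℚ) ^ 2 - (ex j : ℚ) ^ 2) =
        -∏ k ∈ univ.erase j, ((ex j : ℚ) ^ 2 - (ex k : ℚ) ^ 2) := by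
      rw [prod_erase_eq (fun k => ((ex j : ℚ) ^ 2 - (ex (k : ℕ) : ℚ) ^ 2)) j]
      have h3 : ∀ k : Fin (2 * n + 1), ((ex (j.succAbove k) : ℚ) ^ 2 - (ex j : ℚ) ^ 2) =
          (-1) * ((ex j : ℚ) ^ 2 - (ex (j.succAbove k) : ℚ) ^ 2) := fun k => by ring
      rw [prod_congr rfl fun k _ => h3 k, prod_mul_distrib, prod_const, card_univ, Fintype.card_fin,
        Odd.neg_one_pow ⟨n, rfl⟩]
      ring
    have h4 : ∏ k ∈ univ.erase j, ((ex j : ℚ) ^ 2 - (ex k : ℚ) ^ 2) ≠ 0 := by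
      rw [prod_ne_zero_iff]
      intro k hk
      refine ex_sub_ne fun h => (mem_erase.1 hk).1 (Fin.ext h.symm)
    have h5 : ((-1 : ℚ) ^ (j : ℕ)) * (-1) ^ (j : ℕ) = 1 := by
      rw [← pow_add, ← two_mul, pow_mul]
      norm_num
    have hle : ex j ≤ 3 * n + 2 := by
      have := j.2
      unfold ex
      omega
    have h6 : (-1 : ℚ) ^ (3 * n + 2 - ex j) = (-1) ^ n * (-1) ^ (ex j) := by
      have h7 : (-1 : ℚ) ^ (3 * n + 2 - ex j) * (-1) ^ (ex j) = (-1) ^ n := by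
        rw [← pow_add, Nat.sub_add_cancel hle, show 3 * n + 2 = n + 2 * (n + 1) by ring, pow_add,
          pow_mul]
        norm_num
      have h8 : ((-1 : ℚ) ^ (ex j)) * (-1) ^ (ex j) = 1 := by
        rw [← pow_add, ← two_mul, pow_mul]
        norm_num
      calc (-1 : ℚ) ^ (3 * n + 2 - ex j) = (-1) ^ (3 * n + 2 - ex j) * ((-1) ^ (ex j) * (-1) ^ (ex j)) := by
            rw [h8, mul_one]
        _ = (-1) ^ n * (-1) ^ (ex j) := by rw [← mul_assoc, h7]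
    rw [h2] at h1
    have h9 : (Vn n) = ∏ k : Fin (2 * n + 1 + 1), ∏ k' ∈ Ioi k,
      ((ex (k' : ℕ) : ℚ) ^ 2 - (ex (k : ℕ) : ℚ) ^ 2) := rfl
    rw [← h9] at h1
    rw [pow_add, h6, ← mul_div_assoc, eq_div_iff h4]
    have h10 : (∏ k : Fin (2 * n + 1), ∏ k' ∈ Ioi k,
        ((ex (j.succAbove k') : ℚ) ^ 2 - (ex (j.succAbove k) : ℚ) ^ 2)) *
        ∏ k ∈ univ.erase j, ((ex j : ℚ) ^ 2 - (ex k : ℚ) ^ 2) = -((-1) ^ (j : ℕ) * Vn n) := by
      rw [← h1]
      ring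
    calc _ = (-1) ^ (j : ℕ) * ((-1) ^ n * (-1) ^ ex j) * ((∏ k : Fin (2 * n + 1), ∏ k' ∈ Ioi k,
        ((ex (j.succAbove k') : ℚ) ^ 2 - (ex (j.succAbove k) : ℚ) ^ 2)) *
        ∏ k ∈ univ.erase j, ((ex j : ℚ) ^ 2 - (ex k : ℚ) ^ 2)) := by ring
      _ = -(((-1) ^ (j : ℕ)) * (-1) ^ (j : ℕ)) * ((-1) ^ n * (-1) ^ ex j) * Vn n := by
        rw [h10]
        ring
      _ = _ := by
        rw [h5]
        ring
  rw [sum_congr rfl fun j _ => key j, ← mul_sum]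
  unfold Tn
  ring

end Pool.Agent.U408.OA
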